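import Pool.Agent.TH625.LOG.LI

/-!
# Finite complexes over the complex of a labelled oriented graph

`n v : Equiv.Perm A` are permutations of a set `A` (the letters `v` acting from the right).  The pair
`(a, v)` is the edge from `a` to `n v a` with the letter `v`, the pair `(e, a)` a 2-cell of the
labelled oriented graph based at `a`.
-/

set_option autoImplicit false

namespace Pool.Agent.V5helper80.NPI

open Pool.Agent.TH625.LOG

variable {V E A : Type}

/-- the four sides of the 2-cell `(e, a)` -/
def sd (L : LOG V E) (n : V → Equiv.Perm A) (f : E × A) : Fin 4 → A × V :=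
  ![(f.2, L.ini f.1), (n (L.ini f.1) f.2, L.lab f.1), (f.2, L.lab f.1),
    (n (L.lab f.1) f.2, L.ter f.1)]

/-- the 2-cell `(e, a)` closes up -/
def Closed (L : LOG V E) (n : V → Equiv.Perm A) (f : E × A) : Prop :=
  n (L.lab f.1) (n (L.ini f.1) f.2) = n (L.ter f.1) (n (L.lab f.1) f.2)

/-- a finite complex with edges `S` and 2-cells `F` -/
def Cplx (L : LOG V E) (n : V → Equiv.Perm A) (S : Finset (A × V)) (F : Finset (E × A)) : Prop :=
  ∀ f ∈ F, Closed L n f ∧ ∀ k, sd L n f k ∈ S

/-- the cell equation -/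
def Eqn (L : LOG V E) (n : V → Equiv.Perm A) (c : A × V → ℚ) (f : E × A) : Prop :=
  c (sd L n f 0) + c (sd L n f 1) = c (sd L n f 2) + c (sd L n f 3)

/-- no cohomology in degree one -/
def HZ (L : LOG V E) (n : V → Equiv.Perm A) (S : Finset (A × V)) (F : Finset (E × A)) : Prop :=
  ∀ c : A × V → ℚ, (∀ f ∈ F, Eqn L n c f) →
    ∃ δ : A → ℚ, ∀ x ∈ S, c x = δ (n x.2 x.1) - δ x.1

/-- trivial image in the group -/
def Triv (L : LOG V E) (n : V → Equiv.Perm A) (S : Finset (A × V)) : Prop :=
  ∃ p : A → L.G, ∀ x ∈ S, p (n x.2 x.1) = p x.1 * L.gen x.2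

open Classical in
/-- the passes over an edge -/
noncomputable def passes (L : LOG V E) (n : V → Equiv.Perm A) (F : Finset (E × A)) (x : A × V) :
    Finset ((E × A) × Fin 4) :=
  (F ×ˢ Finset.univ).filter fun q => sd L n q.1 q.2 = x

open Classical in
/-- the end points of the edges -/
noncomputable def verts (n : V → Equiv.Perm A) (S : Finset (A × V)) : Finset A :=
  S.image (fun x => x.1) ∪ S.image (fun x => n x.2 x.1)

theorem mem_passes {L : LOG V E} {n : V → Equiv.Perm A} {F : Finset (E × A)} {x : A × V}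
    {q : (E × A) × Fin 4} : q ∈ passes L n F x ↔ q.1 ∈ F ∧ sd L n q.1 q.2 = x := by
  simp [passes]

section rank
open Classical

theorem rank_ineq (L : LOG V E) (n : V → Equiv.Perm A) (S : Finset (A × V)) (F : Finset (E × A))
    (hC : Cplx L n S F) (hS : S.Nonempty) (hz : HZ L n S F) :
    S.card + 1 ≤ F.card + (verts n S).card := by
  have hv1 : ∀ x ∈ S, x.1 ∈ verts n S := fun x hx =>
    Finset.mem_union_left _ (Finset.mem_image_of_mem _ hx)
  have hv2 : ∀ x ∈ S, n x.2 x.1 ∈ verts n S := fun x hx =>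
    Finset.mem_union_right _ (Finset.mem_image_of_mem (fun x : A × V => n x.2 x.1) hx)
  let C : (S → ℚ) →ₗ[ℚ] (F → ℚ) :=
    { toFun := fun c f => c ⟨sd L n f.1 0, (hC f.1 f.2).2 0⟩ + c ⟨sd L n f.1 1, (hC f.1 f.2).2 1⟩ -
        (c ⟨sd L n f.1 2, (hC f.1 f.2).2 2⟩ + c ⟨sd L n f.1 3, (hC f.1 f.2).2 3⟩)
      map_add' := by
        intro c d
        funext f
        simp only [Pi.add_apply]
        ring
      map_smul' := by
        intro r c
        funext f
        simp only [Pi.smul_apply, smul_eq_mul, RingHom.id_apply]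
        ring }
  let D : (verts n S → ℚ) →ₗ[ℚ] (S → ℚ) :=
    { toFun := fun δ x => δ ⟨n x.1.2 x.1.1, hv2 x.1 x.2⟩ - δ ⟨x.1.1, hv1 x.1 x.2⟩
      map_add' := by
        intro c d
        funext f
        simp only [Pi.add_apply]
        ring
      map_smul' := by
        intro r c
        funext f
        simp only [Pi.smul_apply, smul_eq_mul, RingHom.id_apply]
        ring }
  have hle : LinearMap.ker C ≤ LinearMap.range D := by
    intro c hc
    rw [LinearMap.mem_ker] at hc
    let c' : A × V → ℚ := fun x => if h : x ∈ S then c ⟨x, h⟩ else 0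
    have hc' : ∀ x (h : x ∈ S), c' x = c ⟨x, h⟩ := fun x h => by simp [c', h]
    obtain ⟨δ, hδ⟩ := hz c' (by
      intro f hf
      have h1 := congrFun hc ⟨f, hf⟩
      have h2 : c ⟨sd L n f 0, (hC f hf).2 0⟩ + c ⟨sd L n f 1, (hC f hf).2 1⟩ -
        (c ⟨sd L n f 2, (hC f hf).2 2⟩ + c ⟨sd L n f 3, (hC f hf).2 3⟩) = 0 := h1
      unfold Eqn
      rw [hc' _ ((hC f hf).2 0), hc' _ ((hC f hf).2 1), hc' _ ((hC f hf).2 2),
        hc' _ ((hC f hf).2 3)]
      linarith)
    refine ⟨fun a => δ a.1, ?_⟩
    funext x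
    show δ (n x.1.2 x.1.1) - δ x.1.1 = c x
    rw [← hδ x.1 x.2, hc' x.1 x.2]
  have h1 := LinearMap.finrank_range_add_finrank_ker C
  have h2 := LinearMap.finrank_range_add_finrank_ker D
  have h3 : Module.finrank ℚ (LinearMap.range C) ≤ F.card := by
    have := Submodule.finrank_le (LinearMap.range C)
    simpa using this
  have h4 : Module.finrank ℚ (LinearMap.ker C) ≤ Module.finrank ℚ (LinearMap.range D) :=
    Submodule.finrank_mono hle
  have h5 : 1 ≤ Module.finrank ℚ (LinearMap.ker D) := by
    have hne : LinearMap.ker D ≠ ⊥ := by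
      intro h
      have h6 : (fun _ => (1 : ℚ) : verts n S → ℚ) ∈ LinearMap.ker D := by
        rw [LinearMap.mem_ker]
        funext x
        show (1 : ℚ) - 1 = 0
        norm_num
      rw [h, Submodule.mem_bot] at h6
      obtain ⟨x, hx⟩ := hS
      have := congrFun h6 ⟨x.1, hv1 x hx⟩
      simp at this
    have : 0 < Module.finrank ℚ (LinearMap.ker D) := by
      rw [Module.finrank_pos_iff]
      exact Submodule.nontrivial_iff_ne_bot.2 hne
    omega
  have h6 : Module.finrank ℚ (S → ℚ) = S.card := by simp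
  have h7 : Module.finrank ℚ (verts n S → ℚ) = (verts n S).card := by simp
  omega

end rank

section steps
open Classical

variable {L : LOG V E} {n : V → Equiv.Perm A} {S : Finset (A × V)} {F : Finset (E × A)}

theorem Cplx.erase_edge (hC : Cplx L n S F) (x : A × V) (hx : passes L n F x = ∅) :
    Cplx L n (S.erase x) F := by
  intro f hf
  refine ⟨(hC f hf).1, fun k => Finset.mem_erase.2 ⟨?_, (hC f hf).2 k⟩⟩
  intro h
  have : (f, k) ∈ passes L n F x := mem_passes.2 ⟨hf, h⟩
  rw [hx] at this
  exact absurd this (Finset.notMem_empty _)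

theorem step_zero (hC : Cplx L n S F) (hz : HZ L n S F) (x : A × V) (hxS : x ∈ S)
    (hx : passes L n F x = ∅) :
    HZ L n (S.erase x) F ∧ (Triv L n (S.erase x) → Triv L n S) := by
  have hne : ∀ f ∈ F, ∀ k, sd L n f k ≠ x := by
    intro f hf k h
    have : (f, k) ∈ passes L n F x := mem_passes.2 ⟨hf, h⟩
    rw [hx] at this
    exact absurd this (Finset.notMem_empty _)
  constructor
  · intro c hc
    obtain ⟨δ, hδ⟩ := hz c hc
    exact ⟨δ, fun y hy => hδ y (Finset.mem_of_mem_erase hy)⟩
  · rintro ⟨p, hp⟩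
    obtain ⟨δ, hδ⟩ := hz (Pi.single x 1) (by
      intro f hf
      unfold Eqn
      rw [Pi.single_eq_of_ne (hne f hf 0), Pi.single_eq_of_ne (hne f hf 1),
        Pi.single_eq_of_ne (hne f hf 2), Pi.single_eq_of_ne (hne f hf 3)])
    have hδx := hδ x hxS
    rw [Pi.single_eq_same] at hδx
    set b := n x.2 x.1 with hb
    let g : L.G := p x.1 * L.gen x.2 * (p b)⁻¹
    refine ⟨fun z => if δ z = δ b then g * p z else p z, ?_⟩
    intro y hy
    by_cases hyx : y = x
    · subst hyx
      have h1 : ¬ (δ y.1 = δ b) := by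
        intro h
        rw [h] at hδx
        linarith
      simp only [← hb, if_true, if_neg h1]
      show p y.1 * L.gen y.2 * (p b)⁻¹ * p b = _
      rw [inv_mul_cancel_right]
    · have hδy := hδ y hy
      rw [Pi.single_eq_of_ne hyx] at hδy
      have h2 : δ (n y.2 y.1) = δ y.1 := by linarith
      have h3 := hp y (Finset.mem_erase.2 ⟨hyx, hy⟩)
      simp only [h2]
      split_ifs
      · rw [h3]
        exact (mul_assoc g _ _).symm
      · exact h3

/-- solving the cell equation for one side -/
theorem solve (c : A × V → ℚ) (f : E × A) (x : A × V) (k : Fin 4) (hk : sd L n f k = x)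
    (huniq : ∀ k', sd L n f k' = x → k' = k) : ∃ t : ℚ, Eqn L n (Function.update c x t) f := by
  have hne : ∀ k', k' ≠ k → sd L n f k' ≠ x := fun k' h h' => h (huniq k' h')
  unfold Eqn
  fin_cases k
  · refine ⟨c (sd L n f 2) + c (sd L n f 3) - c (sd L n f 1), ?_⟩
    rw [show sd L n f 0 = x from hk, Function.update_self,
      Function.update_of_ne (hne 1 (by decide)), Function.update_of_ne (hne 2 (by decide)),
      Function.update_of_ne (hne 3 (by decide))]
    ring
  · refine ⟨c (sd L n f 2) + c (sd L n f 3) - c (sd L n f 0), ?_⟩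
    rw [show sd L n f 1 = x from hk, Function.update_self,
      Function.update_of_ne (hne 0 (by decide)), Function.update_of_ne (hne 2 (by decide)),
      Function.update_of_ne (hne 3 (by decide))]
    ring
  · refine ⟨c (sd L n f 0) + c (sd L n f 1) - c (sd L n f 3), ?_⟩
    rw [show sd L n f 2 = x from hk, Function.update_self,
      Function.update_of_ne (hne 1 (by decide)), Function.update_of_ne (hne 0 (by decide)),
      Function.update_of_ne (hne 3 (by decide))]
    ring
  · refine ⟨c (sd L n f 0) + c (sd L n f 1) - c (sd L n f 2), ?_⟩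
    rw [show sd L n f 3 = x from hk, Function.update_self,
      Function.update_of_ne (hne 1 (by decide)), Function.update_of_ne (hne 2 (by decide)),
      Function.update_of_ne (hne 0 (by decide))]
    ring

/-- the last side of a cell in the group -/
theorem last_side (p : A → L.G) (f : E × A) (hf : Closed L n f) (k : Fin 4)
    (h : ∀ k', k' ≠ k → p (n (sd L n f k').2 (sd L n f k').1) =
      p (sd L n f k').1 * L.gen (sd L n f k').2) :
    p (n (sd L n f k).2 (sd L n f k).1) = p (sd L n f k).1 * L.gen (sd L n f k).2 := by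
  have hrel := gen_rel L f.1
  unfold Closed at hf
  have e0 : sd L n f 0 = (f.2, L.ini f.1) := rfl
  have e1 : sd L n f 1 = (n (L.ini f.1) f.2, L.lab f.1) := rfl
  have e2 : sd L n f 2 = (f.2, L.lab f.1) := rfl
  have e3 : sd L n f 3 = (n (L.lab f.1) f.2, L.ter f.1) := rfl
  fin_cases k
  · have h1 := h 1 (by decide)
    have h2 := h 2 (by decide)
    have h3 := h 3 (by decide)
    rw [e1] at h1; rw [e2] at h2; rw [e3] at h3
    show p (n (sd L n f 0).2 (sd L n f 0).1) = p (sd L n f 0).1 * L.gen (sd L n f 0).2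
    rw [e0]
    simp only at h1 h2 h3 ⊢
    rw [hf, h3, h2] at h1
    have h4 : p (n (L.ini f.1) f.2) = p f.2 * L.gen (L.lab f.1) * L.gen (L.ter f.1) *
        (L.gen (L.lab f.1))⁻¹ := by rw [h1, mul_inv_cancel_right]
    rw [h4, mul_assoc (p f.2), ← hrel, mul_assoc, mul_assoc, mul_inv_cancel, mul_one]
  · have h1 := h 0 (by decide)
    have h2 := h 2 (by decide)
    have h3 := h 3 (by decide)
    rw [e0] at h1; rw [e2] at h2; rw [e3] at h3
    show p (n (sd L n f 1).2 (sd L n f 1).1) = p (sd L n f 1).1 * L.gen (sd L n f 1).2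
    rw [e1]
    simp only at h1 h2 h3 ⊢
    rw [hf, h3, h2, h1, mul_assoc, ← hrel, mul_assoc]
  · have h1 := h 0 (by decide)
    have h2 := h 1 (by decide)
    have h3 := h 3 (by decide)
    rw [e0] at h1; rw [e1] at h2; rw [e3] at h3
    show p (n (sd L n f 2).2 (sd L n f 2).1) = p (sd L n f 2).1 * L.gen (sd L n f 2).2
    rw [e2]
    simp only at h1 h2 h3 ⊢
    rw [← hf, h2, h1] at h3
    have h4 : p (n (L.lab f.1) f.2) = p f.2 * L.gen (L.ini f.1) * L.gen (L.lab f.1) *
        (L.gen (L.ter f.1))⁻¹ := by rw [h3, mul_inv_cancel_right]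
    rw [h4, mul_assoc (p f.2), hrel, mul_assoc, mul_assoc, mul_inv_cancel, mul_one]
  · have h1 := h 0 (by decide)
    have h2 := h 1 (by decide)
    have h3 := h 2 (by decide)
    rw [e0] at h1; rw [e1] at h2; rw [e2] at h3
    show p (n (sd L n f 3).2 (sd L n f 3).1) = p (sd L n f 3).1 * L.gen (sd L n f 3).2
    rw [e3]
    simp only at h1 h2 h3 ⊢
    rw [← hf, h3, h2, h1, mul_assoc, hrel, mul_assoc]

theorem step_one (hC : Cplx L n S F) (hz : HZ L n S F) (x : A × V) (f : E × A)
    (k : Fin 4) (hx : passes L n F x = {(f, k)}) :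
    Cplx L n (S.erase x) (F.erase f) ∧ HZ L n (S.erase x) (F.erase f) ∧
      (Triv L n (S.erase x) → Triv L n S) := by
  have hfk : (f, k) ∈ passes L n F x := by rw [hx]; exact Finset.mem_singleton_self _
  obtain ⟨hf, hk⟩ := mem_passes.1 hfk
  simp only at hf hk
  have huniq : ∀ f' ∈ F, ∀ k', sd L n f' k' = x → f' = f ∧ k' = k := by
    intro f' hf' k' h
    have : (f', k') ∈ passes L n F x := mem_passes.2 ⟨hf', h⟩
    rw [hx, Finset.mem_singleton] at this
    exact ⟨congrArg Prod.fst this, congrArg Prod.snd this⟩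
  refine ⟨?_, ?_, ?_⟩
  · intro f' hf'
    have hf'F := Finset.mem_of_mem_erase hf'
    refine ⟨(hC f' hf'F).1, fun k' => Finset.mem_erase.2 ⟨?_, (hC f' hf'F).2 k'⟩⟩
    intro h
    exact (Finset.ne_of_mem_erase hf') (huniq f' hf'F k' h).1
  · intro c hc
    obtain ⟨t, ht⟩ := solve (L := L) (n := n) c f x k hk (fun k' h => (huniq f hf k' h).2)
    obtain ⟨δ, hδ⟩ := hz (Function.update c x t) (by
      intro f' hf'
      by_cases h : f' = f
      · rw [h]; exact ht
      · have h1 := hc f' (Finset.mem_erase.2 ⟨h, hf'⟩)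
        unfold Eqn at h1 ⊢
        have hne : ∀ k', sd L n f' k' ≠ x := fun k' h' => h (huniq f' hf' k' h').1
        rw [Function.update_of_ne (hne 0), Function.update_of_ne (hne 1),
          Function.update_of_ne (hne 2), Function.update_of_ne (hne 3)]
        exact h1)
    refine ⟨δ, fun y hy => ?_⟩
    have h1 := hδ y (Finset.mem_of_mem_erase hy)
    rwa [Function.update_of_ne (Finset.ne_of_mem_erase hy)] at h1
  · rintro ⟨p, hp⟩
    refine ⟨p, fun y hy => ?_⟩
    by_cases hyx : y = x
    · rw [hyx, ← hk]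
      refine last_side p f (hC f hf).1 k fun k' hk' => hp _ (Finset.mem_erase.2 ⟨?_, (hC f hf).2 k'⟩)
      intro h
      exact hk' (huniq f hf k' h).2
    · exact hp y (Finset.mem_erase.2 ⟨hyx, hy⟩)

/-- the counting inequality for the complexes over `A` all of whose edges are passed at least
twice -/
def Ineq (L : LOG V E) (A : Type) : Prop :=
  ∀ (n : V → Equiv.Perm A) (S : Finset (A × V)) (F : Finset (E × A)), S.Nonempty → Cplx L n S F →
    (∀ x ∈ S, 2 ≤ (passes L n F x).card) → HZ L n S F → F.card + (verts n S).card ≤ S.card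

theorem triv_of_HZ (hI : Ineq L A) (n : V → Equiv.Perm A) :
    ∀ (m : ℕ) (S : Finset (A × V)) (F : Finset (E × A)), S.card = m → Cplx L n S F →
      HZ L n S F → Triv L n S := by
  intro m
  induction m using Nat.strong_induction_on with
  | _ m ih =>
    intro S F hm hC hz
    rcases S.eq_empty_or_nonempty with h0 | hS
    · exact ⟨fun _ => 1, fun x hx => by rw [h0] at hx; exact absurd hx (Finset.notMem_empty _)⟩
    by_cases hall : ∀ x ∈ S, 2 ≤ (passes L n F x).card
    · exfalso
      have h1 := hI n S F hS hC hall hz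
      have h2 := rank_ineq L n S F hC hS hz
      omega
    · push Not at hall
      obtain ⟨x, hx, hlt⟩ := hall
      have hcard : (S.erase x).card < m := by
        rw [← hm]; exact Finset.card_erase_lt_of_mem hx
      have h3 : (passes L n F x).card = 0 ∨ (passes L n F x).card = 1 := by omega
      rcases h3 with h3 | h3
      · have h4 := Finset.card_eq_zero.1 h3
        obtain ⟨h5, h6⟩ := step_zero hC hz x hx h4
        exact h6 (ih _ hcard _ _ rfl (hC.erase_edge x h4) h5)
      · obtain ⟨⟨f, k⟩, h4⟩ := Finset.card_eq_one.1 h3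
        obtain ⟨h5, h6, h7⟩ := step_one hC hz x f k h4
        exact h7 (ih _ hcard _ _ rfl h5 h6)

end steps

end Pool.Agent.V5helper80.NPI
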