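import Mathlib

/-!
# Two disjoint branchings

Every vertex `v ∉ R` has two arcs, with the tails `tl v true` and `tl v false`.  If every nonempty set
without elements of `R` is entered by at least two arcs, then one arc at each vertex can be chosen so
that the chosen arcs form a branching with root set `R`, and so do the other arcs (Edmonds; the proof
is that of Lovász).
-/

set_option autoImplicit false

namespace Pool.Agent.V5helper80.NPI

section
variable {V : Type} [DecidableEq V]

/-- the number of the arcs in `R` that enter `S` -/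
def indeg (tl : V → Bool → V) (R : Finset (V × Bool)) (S : Finset V) : ℕ :=
  (R.filter fun x => x.1 ∈ S ∧ tl x.1 x.2 ∉ S).card

theorem indeg_submod (tl : V → Bool → V) (R : Finset (V × Bool)) (S T : Finset V) :
    indeg tl R (S ∩ T) + indeg tl R (S ∪ T) ≤ indeg tl R S + indeg tl R T := by
  unfold indeg
  simp only [Finset.card_filter]
  rw [← Finset.sum_add_distrib, ← Finset.sum_add_distrib]
  refine Finset.sum_le_sum fun x _ => ?_
  simp only [Finset.mem_inter, Finset.mem_union]
  by_cases h1 : x.1 ∈ S <;> by_cases h2 : x.1 ∈ T <;> by_cases h3 : tl x.1 x.2 ∈ S <;>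
    by_cases h4 : tl x.1 x.2 ∈ T <;> simp [h1, h2, h3, h4]

/-- removing one arc -/
theorem indeg_erase (tl : V → Bool → V) (R : Finset (V × Bool)) (S : Finset V) (x : V × Bool)
    (hx : x ∈ R) (hS : x.1 ∈ S ∧ tl x.1 x.2 ∉ S) :
    indeg tl (R.erase x) S + 1 = indeg tl R S := by
  unfold indeg
  rw [Finset.filter_erase]
  exact Finset.card_erase_add_one (Finset.mem_filter.2 ⟨hx, hS⟩)

theorem indeg_erase_of_not (tl : V → Bool → V) (R : Finset (V × Bool)) (S : Finset V) (x : V × Bool)
    (hS : ¬ (x.1 ∈ S ∧ tl x.1 x.2 ∉ S)) :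
    indeg tl (R.erase x) S = indeg tl R S := by
  unfold indeg
  rw [Finset.filter_erase, Finset.erase_eq_of_notMem]
  intro h
  exact hS (Finset.mem_filter.1 h).2

variable [Fintype V]

/-- the remaining arcs -/
def rem (W : Finset V) (c : V → Bool) : Finset (V × Bool) :=
  Finset.univ.filter fun x => x.1 ∉ W ∨ x.2 ≠ c x.1

theorem mem_rem (W : Finset V) (c : V → Bool) (x : V × Bool) :
    x ∈ rem W c ↔ x.1 ∉ W ∨ x.2 ≠ c x.1 := by simp [rem]

theorem rem_insert (W : Finset V) (c : V → Bool) (v : V) (β : Bool) (hv : v ∉ W) :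
    rem (insert v W) (Function.update c v β) = (rem W c).erase (v, β) := by
  ext ⟨u, γ⟩
  rw [Finset.mem_erase, mem_rem, mem_rem]
  simp only [Finset.mem_insert, ne_eq, Prod.mk.injEq, not_and, not_or]
  by_cases h : u = v
  · subst h
    simp [hv]
  · simp [h]

/-- the arc that Lovász's proof adds -/
theorem next_arc (Z : Finset V) (tl : V → Bool → V) (R : Finset (V × Bool)) (W : Finset V)
    (hZ : Z ⊆ W) (hW : W ≠ Finset.univ)
    (h1 : ∀ S : Finset V, S.Nonempty → Disjoint S Z → 1 ≤ indeg tl R S)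
    (h2 : ∀ S : Finset V, S.Nonempty → Disjoint S W → 2 ≤ indeg tl R S) :
    ∃ x ∈ R, x.1 ∉ W ∧ tl x.1 x.2 ∈ W ∧
      ∀ S : Finset V, S.Nonempty → Disjoint S Z → 1 ≤ indeg tl (R.erase x) S := by
  by_cases hD : ∃ A : Finset V, Disjoint A Z ∧ indeg tl R A = 1 ∧ (A \ W).Nonempty
  · -- a minimal dangerous set
    obtain ⟨A, hA, hmin⟩ : ∃ A : Finset V, (Disjoint A Z ∧ indeg tl R A = 1 ∧ (A \ W).Nonempty) ∧
        ∀ B : Finset V, B ⊂ A → ¬ (Disjoint B Z ∧ indeg tl R B = 1 ∧ (B \ W).Nonempty) := by
      obtain ⟨A0, hA0⟩ := hD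
      let 𝒟 : Finset (Finset V) := Finset.univ.filter fun A =>
        Disjoint A Z ∧ indeg tl R A = 1 ∧ (A \ W).Nonempty
      obtain ⟨A, hA, hm⟩ := 𝒟.exists_min_image Finset.card
        ⟨A0, Finset.mem_filter.2 ⟨Finset.mem_univ _, hA0⟩⟩
      refine ⟨A, (Finset.mem_filter.1 hA).2, fun B hB h => ?_⟩
      have := hm B (Finset.mem_filter.2 ⟨Finset.mem_univ _, h⟩)
      exact absurd (Finset.card_lt_card hB) (by omega)
    obtain ⟨hrA, hdA, hne⟩ := hA
    have hdis : Disjoint (A \ W) W := Finset.sdiff_disjoint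
    have h3 := h2 (A \ W) hne hdis
    -- an arc entering `A \ W` from `A ∩ W`
    obtain ⟨x, hxR, hx1, hx2, hx3⟩ : ∃ x ∈ R, x.1 ∈ A \ W ∧ tl x.1 x.2 ∉ A \ W ∧
        tl x.1 x.2 ∈ A := by
      by_contra hno
      push Not at hno
      have : indeg tl R (A \ W) ≤ indeg tl R A := by
        unfold indeg
        refine Finset.card_le_card ?_
        intro x hx
        obtain ⟨hxR, hx1, hx2⟩ := Finset.mem_filter.1 hx
        exact Finset.mem_filter.2 ⟨hxR, (Finset.mem_sdiff.1 hx1).1, hno x hxR hx1 hx2⟩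
      omega
    obtain ⟨hx1A, hx1W⟩ := Finset.mem_sdiff.1 hx1
    have hx3W : tl x.1 x.2 ∈ W := by
      by_contra h
      exact hx2 (Finset.mem_sdiff.2 ⟨hx3, h⟩)
    refine ⟨x, hxR, hx1W, hx3W, ?_⟩
    intro S hS hrS
    by_cases hent : x.1 ∈ S ∧ tl x.1 x.2 ∉ S
    · have h4 := indeg_erase tl R S x hxR hent
      by_contra hlt
      have h5 : indeg tl R S = 1 := by
        have := h1 S hS hrS
        omega
      have h6 := indeg_submod tl R S A
      have hdi : Disjoint (S ∩ A) Z := hrS.mono_left Finset.inter_subset_left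
      have h7 : 1 ≤ indeg tl R (S ∩ A) := h1 _ ⟨x.1, Finset.mem_inter.2 ⟨hent.1, hx1A⟩⟩ hdi
      have h8 : 1 ≤ indeg tl R (S ∪ A) := h1 _ ⟨x.1, Finset.mem_union_left _ hent.1⟩
        (Finset.disjoint_union_left.2 ⟨hrS, hrA⟩)
      refine hmin (S ∩ A) ?_ ⟨hdi, by omega,
        ⟨x.1, Finset.mem_sdiff.2 ⟨Finset.mem_inter.2 ⟨hent.1, hx1A⟩, hx1W⟩⟩⟩
      refine Finset.ssubset_iff_subset_ne.2 ⟨Finset.inter_subset_right, fun h => ?_⟩
      have : tl x.1 x.2 ∈ S ∩ A := by rw [h]; exact hx3
      exact hent.2 (Finset.mem_inter.1 this).1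
    · rw [indeg_erase_of_not tl R S x hent]
      exact h1 S hS hrS
  · -- no dangerous set
    have hne : (Finset.univ \ W : Finset V).Nonempty := by
      by_contra h
      rw [Finset.not_nonempty_iff_eq_empty, Finset.sdiff_eq_empty_iff_subset] at h
      exact hW (Finset.univ_subset_iff.1 h)
    have h3 := h2 (Finset.univ \ W) hne Finset.sdiff_disjoint
    obtain ⟨x, hx⟩ : (R.filter fun x => x.1 ∈ (Finset.univ \ W : Finset V) ∧
        tl x.1 x.2 ∉ (Finset.univ \ W : Finset V)).Nonempty := by
      rw [← Finset.card_pos]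
      unfold indeg at h3
      omega
    obtain ⟨hxR, hx1, hx2⟩ := Finset.mem_filter.1 hx
    have hx1' := (Finset.mem_sdiff.1 hx1).2
    have hx2' : tl x.1 x.2 ∈ W := by
      by_contra h
      exact hx2 (Finset.mem_sdiff.2 ⟨Finset.mem_univ _, h⟩)
    refine ⟨x, hxR, hx1', hx2', ?_⟩
    intro S hS hrS
    by_cases hent : x.1 ∈ S ∧ tl x.1 x.2 ∉ S
    · have h4 := indeg_erase tl R S x hxR hent
      by_contra hlt
      exact hD ⟨S, hrS, by have := h1 S hS hrS; omega,
        ⟨x.1, Finset.mem_sdiff.2 ⟨hent.1, hx1'⟩⟩⟩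
    · rw [indeg_erase_of_not tl R S x hent]
      exact h1 S hS hrS

/-- the theorem of Edmonds for two branchings of a graph with two arcs at each vertex -/
theorem edmonds (Z : Finset V) (tl : V → Bool → V)
    (h : ∀ S : Finset V, S.Nonempty → Disjoint S Z →
      2 ≤ (Finset.univ.filter fun x : V × Bool => x.1 ∈ S ∧ tl x.1 x.2 ∉ S).card) :
    ∃ c : V → Bool,
      (∀ S : Finset V, S.Nonempty → Disjoint S Z → ∃ v ∈ S, tl v (c v) ∉ S) ∧
      (∀ S : Finset V, S.Nonempty → Disjoint S Z → ∃ v ∈ S, tl v (!c v) ∉ S) := by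
  have key : ∀ (m : ℕ) (W : Finset V) (c : V → Bool), (Finset.univ \ W).card = m → Z ⊆ W →
      (∀ v ∈ W, v ∉ Z → tl v (c v) ∈ W) →
      (∀ S : Finset V, S.Nonempty → S ⊆ W → Disjoint S Z → ∃ v ∈ S, tl v (c v) ∉ S) →
      (∀ S : Finset V, S.Nonempty → Disjoint S Z → 1 ≤ indeg tl (rem W c) S) →
      ∃ c : V → Bool,
      (∀ S : Finset V, S.Nonempty → Disjoint S Z → ∃ v ∈ S, tl v (c v) ∉ S) ∧
      (∀ S : Finset V, S.Nonempty → Disjoint S Z → ∃ v ∈ S, tl v (!c v) ∉ S) := by
    intro m
    induction m with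
    | zero =>
      intro W c hm hr _ hac hin
      have hW : W = Finset.univ := by
        have := Finset.card_eq_zero.1 hm
        exact Finset.univ_subset_iff.1 (Finset.sdiff_eq_empty_iff_subset.1 this)
      subst hW
      refine ⟨c, fun S hS hrS => hac S hS (Finset.subset_univ _) hrS, fun S hS hrS => ?_⟩
      have h1 := hin S hS hrS
      unfold indeg at h1
      obtain ⟨x, hx⟩ := Finset.card_pos.1 h1
      obtain ⟨hxR, hx1, hx2⟩ := Finset.mem_filter.1 hx
      refine ⟨x.1, hx1, ?_⟩
      have h3 := (mem_rem _ _ _).1 hxR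
      have h4 : x.2 ≠ c x.1 := h3.elim (fun h => absurd (Finset.mem_univ _) h) id
      have h5 : x.2 = !c x.1 := by
        cases hx : x.2 <;> cases hc : c x.1 <;> simp_all
      rw [← h5]
      exact hx2
    | succ m ih =>
      intro W c hm hr htl hac hin
      have hW : W ≠ Finset.univ := by
        intro h
        rw [h, Finset.sdiff_self, Finset.card_empty] at hm
        omega
      have h2 : ∀ S : Finset V, S.Nonempty → Disjoint S W → 2 ≤ indeg tl (rem W c) S := by
        intro S hS hd
        refine (h S hS (hd.mono_right hr)).trans ?_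
        unfold indeg
        refine Finset.card_le_card fun x hx => ?_
        obtain ⟨_, hx1, hx2⟩ := Finset.mem_filter.1 hx
        exact Finset.mem_filter.2 ⟨(mem_rem _ _ _).2 (Or.inl (Finset.disjoint_left.1 hd hx1)),
          hx1, hx2⟩
      obtain ⟨⟨v, β⟩, hxR, hxW, htW, hx⟩ := next_arc Z tl (rem W c) W hr hW hin h2
      simp only at hxW htW hx
      refine ih (insert v W) (Function.update c v β) ?_
        (hr.trans (Finset.subset_insert _ _)) ?_ ?_ ?_
      · have : Finset.univ \ insert v W = (Finset.univ \ W).erase v := by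
          ext u; simp
        rw [this, Finset.card_erase_of_mem (Finset.mem_sdiff.2 ⟨Finset.mem_univ _, hxW⟩), hm]
        rfl
      · intro u hu hur
        by_cases huv : u = v
        · subst huv
          rw [Function.update_self]
          exact Finset.mem_insert_of_mem htW
        · rw [Function.update_of_ne huv]
          exact Finset.mem_insert_of_mem (htl u (Finset.mem_of_mem_insert_of_ne hu huv) hur)
      · intro S hS hSW hrS
        by_cases hvS : v ∈ S
        · by_cases h3 : tl v β ∈ S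
          · have htv : tl v β ≠ v := fun h => hxW (by rw [← h]; exact htW)
            obtain ⟨u, hu, hu'⟩ := hac (S.erase v) ⟨tl v β, Finset.mem_erase.2 ⟨htv, h3⟩⟩ (by
              intro u hu
              exact Finset.mem_of_mem_insert_of_ne (hSW (Finset.mem_of_mem_erase hu))
                (Finset.ne_of_mem_erase hu)) (hrS.mono_left (Finset.erase_subset _ _))
            have huv := Finset.ne_of_mem_erase hu
            have huS := Finset.mem_of_mem_erase hu
            refine ⟨u, huS, ?_⟩
            rw [Function.update_of_ne huv]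
            intro h4
            refine hu' (Finset.mem_erase.2 ⟨?_, h4⟩)
            intro h5
            have huW : u ∈ W := Finset.mem_of_mem_insert_of_ne (hSW huS) huv
            have := htl u huW (Finset.disjoint_left.1 hrS huS)
            rw [h5] at this
            exact hxW this
          · exact ⟨v, hvS, by rw [Function.update_self]; exact h3⟩
        · obtain ⟨u, hu, hu'⟩ := hac S hS (by
            intro u hu
            exact Finset.mem_of_mem_insert_of_ne (hSW hu) (fun h => hvS (h ▸ hu))) hrS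
          have huv : u ≠ v := fun h => hvS (h ▸ hu)
          exact ⟨u, hu, by rw [Function.update_of_ne huv]; exact hu'⟩
      · intro S hS hrS
        rw [rem_insert W c v β hxW]
        exact hx S hS hrS
  refine key _ Z (fun _ => true) rfl (Finset.Subset.refl _) ?_ ?_ ?_
  · intro v hv hvr
    exact absurd hv hvr
  · intro S hS hSr hrS
    obtain ⟨v, hv⟩ := hS
    exact absurd (hSr hv) (Finset.disjoint_left.1 hrS hv)
  · intro S hS hrS
    have h3 := h S hS hrS
    have h4 : (Finset.univ.filter fun x : V × Bool => x.1 ∈ S ∧ tl x.1 x.2 ∉ S).card ≤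
        indeg tl (rem Z fun _ => true) S := by
      unfold indeg
      refine Finset.card_le_card fun x hx => ?_
      obtain ⟨_, hx1, hx2⟩ := Finset.mem_filter.1 hx
      refine Finset.mem_filter.2 ⟨(mem_rem _ _ _).2 (Or.inl ?_), hx1, hx2⟩
      exact Finset.disjoint_left.1 hrS hx1
    omega

end

end Pool.Agent.V5helper80.NPI
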