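import Pool.Agent.V5helper80.NPI.Core
import Pool.Agent.LIQuasi.Prime

/-!
# Local indicability from the counting inequality
-/

set_option autoImplicit false

namespace Pool.Agent.V5helper80.NPI

open Pool.Agent.TH625.LOG

variable {V E : Type}

section cocycle
variable (M : Subgroup (FreeGroup V))

/-- the action of the letters on the cosets -/
def nx (v : V) : Equiv.Perm (FreeGroup V ⧸ M) := MulAction.toPerm (FreeGroup.of v)⁻¹

theorem nx_apply (v : V) (a : FreeGroup V ⧸ M) : nx M v a = (FreeGroup.of v)⁻¹ • a := rfl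

/-- one step -/
def stp (c : (FreeGroup V ⧸ M) × V → ℚ) (v : V) : Equiv.Perm ((FreeGroup V ⧸ M) × ℚ) where
  toFun p := (nx M v p.1, p.2 + c (p.1, v))
  invFun p := ((nx M v).symm p.1, p.2 - c ((nx M v).symm p.1, v))
  left_inv p := by
    refine Prod.ext ?_ ?_
    · show (nx M v).symm (nx M v p.1) = p.1
      exact Equiv.symm_apply_apply _ _
    · show p.2 + c (p.1, v) - c ((nx M v).symm (nx M v p.1), v) = p.2
      rw [Equiv.symm_apply_apply]; ring
  right_inv p := by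
    refine Prod.ext ?_ ?_
    · show nx M v ((nx M v).symm p.1) = p.1
      exact Equiv.apply_symm_apply _ _
    · show p.2 - c ((nx M v).symm p.1, v) + c ((nx M v).symm p.1, v) = p.2
      ring

/-- the action on the line bundle -/
def Tc (c : (FreeGroup V ⧸ M) × V → ℚ) : FreeGroup V →* Equiv.Perm ((FreeGroup V ⧸ M) × ℚ) :=
  FreeGroup.lift fun v => (stp M c v)⁻¹

/-- the integral of `c` along the path with the word `w` from `a` -/
def J (c : (FreeGroup V ⧸ M) × V → ℚ) (w : FreeGroup V) (a : FreeGroup V ⧸ M) : ℚ :=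
  ((Tc M c w)⁻¹ (a, 0)).2

variable {M}

theorem J_spec (c : (FreeGroup V ⧸ M) × V → ℚ) (w : FreeGroup V) :
    ∃ j : (FreeGroup V ⧸ M) → ℚ, ∀ a q, (Tc M c w)⁻¹ (a, q) = (w⁻¹ • a, q + j a) := by
  refine FreeGroup.induction_on (C := fun w => ∃ j : (FreeGroup V ⧸ M) → ℚ, ∀ a q,
    (Tc M c w)⁻¹ (a, q) = (w⁻¹ • a, q + j a)) w ?_ ?_ ?_ ?_
  · refine ⟨0, fun a q => ?_⟩
    rw [map_one, inv_one, inv_one, one_smul]
    simp
  · intro v
    refine ⟨fun a => c (a, v), fun a q => ?_⟩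
    have h : Tc M c (FreeGroup.of v) = (stp M c v)⁻¹ := FreeGroup.lift_apply_of
    rw [h, inv_inv]
    rfl
  · intro v _
    refine ⟨fun a => - c ((nx M v).symm a, v), fun a q => ?_⟩
    have h : Tc M c (FreeGroup.of v) = (stp M c v)⁻¹ := FreeGroup.lift_apply_of
    rw [map_inv, h, inv_inv]
    refine Prod.ext ?_ ?_
    · show (nx M v).symm a = ((FreeGroup.of v)⁻¹)⁻¹ • a
      rw [inv_inv, Equiv.symm_apply_eq, nx_apply, inv_smul_smul]
    · show q - c ((nx M v).symm a, v) = q + - c ((nx M v).symm a, v)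
      ring
  · rintro x y ⟨j, hj⟩ ⟨k, hk⟩
    refine ⟨fun a => j a + k (x⁻¹ • a), fun a q => ?_⟩
    rw [map_mul, mul_inv_rev, Equiv.Perm.mul_apply, hj, hk, mul_inv_rev, mul_smul]
    refine Prod.ext rfl ?_
    show q + j a + k (x⁻¹ • a) = _
    ring

theorem J_apply (c : (FreeGroup V ⧸ M) × V → ℚ) (w : FreeGroup V) (a : FreeGroup V ⧸ M) (q : ℚ) :
    (Tc M c w)⁻¹ (a, q) = (w⁻¹ • a, q + J M c w a) := by
  obtain ⟨j, hj⟩ := J_spec c w
  have : J M c w a = j a := by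
    show ((Tc M c w)⁻¹ (a, 0)).2 = _
    rw [hj]; simp
  rw [this, hj]

theorem J_one (c : (FreeGroup V ⧸ M) × V → ℚ) (a : FreeGroup V ⧸ M) : J M c 1 a = 0 := by
  unfold J
  rw [map_one, inv_one]
  rfl

theorem J_mul (c : (FreeGroup V ⧸ M) × V → ℚ) (x y : FreeGroup V) (a : FreeGroup V ⧸ M) :
    J M c (x * y) a = J M c x a + J M c y (x⁻¹ • a) := by
  have h : J M c (x * y) a = ((Tc M c (x * y))⁻¹ (a, 0)).2 := rfl
  rw [h, map_mul, mul_inv_rev, Equiv.Perm.mul_apply, J_apply, J_apply]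
  simp

theorem J_of (c : (FreeGroup V ⧸ M) × V → ℚ) (v : V) (a : FreeGroup V ⧸ M) :
    J M c (FreeGroup.of v) a = c (a, v) := by
  have : Tc M c (FreeGroup.of v) = (stp M c v)⁻¹ := FreeGroup.lift_apply_of
  unfold J
  rw [this, inv_inv]
  show 0 + c (a, v) = c (a, v)
  ring

theorem J_inv (c : (FreeGroup V ⧸ M) × V → ℚ) (x : FreeGroup V) (a : FreeGroup V ⧸ M) :
    J M c x⁻¹ a = - J M c x (x • a) := by
  have h := J_mul c x x⁻¹ (x • a)
  rw [mul_inv_cancel, J_one, inv_smul_smul] at h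
  linarith

theorem smul_base {m : FreeGroup V} (hm : m ∈ M) :
    m • ((1 : FreeGroup V) : FreeGroup V ⧸ M) = ((1 : FreeGroup V) : FreeGroup V ⧸ M) := by
  rw [MulAction.Quotient.smul_coe, smul_eq_mul, mul_one, QuotientGroup.eq]
  simpa using hm

theorem mem_of_smul_base {m : FreeGroup V}
    (h : m • ((1 : FreeGroup V) : FreeGroup V ⧸ M) = ((1 : FreeGroup V) : FreeGroup V ⧸ M)) :
    m ∈ M := by
  rw [MulAction.Quotient.smul_coe, smul_eq_mul, mul_one, QuotientGroup.eq] at h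
  simpa using h

/-- the elements of `M` with integral zero -/
def Zer (c : (FreeGroup V ⧸ M) × V → ℚ) : Subgroup (FreeGroup V) where
  carrier := {m | m ∈ M ∧ J M c m ((1 : FreeGroup V) : FreeGroup V ⧸ M) = 0}
  one_mem' := ⟨M.one_mem, J_one c _⟩
  mul_mem' := by
    rintro x y ⟨hx, hx'⟩ ⟨hy, hy'⟩
    refine ⟨M.mul_mem hx hy, ?_⟩
    rw [J_mul, hx', smul_base (M.inv_mem hx), hy', add_zero]
  inv_mem' := by
    rintro x ⟨hx, hx'⟩
    refine ⟨M.inv_mem hx, ?_⟩
    rw [J_inv, smul_base hx, hx', neg_zero]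

theorem J_add {c : (FreeGroup V ⧸ M) × V → ℚ} {x y : FreeGroup V} (hx : x ∈ M) :
    J M c (x * y) ((1 : FreeGroup V) : FreeGroup V ⧸ M) =
      J M c x ((1 : FreeGroup V) : FreeGroup V ⧸ M) +
        J M c y ((1 : FreeGroup V) : FreeGroup V ⧸ M) := by
  rw [J_mul, smul_base (M.inv_mem hx)]

theorem comm_le_Zer (c : (FreeGroup V ⧸ M) × V → ℚ) : ⁅M, M⁆ ≤ Zer c := by
  rw [Subgroup.commutator_le]
  intro x hx y hy
  refine ⟨M.mul_mem (M.mul_mem (M.mul_mem hx hy) (M.inv_mem hx)) (M.inv_mem hy), ?_⟩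
  rw [commutatorElement_def, J_add (M.mul_mem (M.mul_mem hx hy) (M.inv_mem hx)),
    J_add (M.mul_mem hx hy), J_add hx, J_inv, J_inv, smul_base hx, smul_base hy]
  ring

theorem J_pow {c : (FreeGroup V ⧸ M) × V → ℚ} {x : FreeGroup V} (hx : x ∈ M) (N : ℕ) :
    J M c (x ^ N) ((1 : FreeGroup V) : FreeGroup V ⧸ M) =
      N * J M c x ((1 : FreeGroup V) : FreeGroup V ⧸ M) := by
  induction N with
  | zero => rw [pow_zero, J_one]; simp
  | succ N ih =>
    rw [pow_succ, J_add (M.pow_mem hx N), ih]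
    push_cast
    ring

theorem mem_Zer_of_pow {c : (FreeGroup V ⧸ M) × V → ℚ} {x : FreeGroup V} (hx : x ∈ M) {N : ℕ}
    (hN : 0 < N) (h : x ^ N ∈ Zer c) : x ∈ Zer c := by
  refine ⟨hx, ?_⟩
  have h1 := h.2
  rw [J_pow hx N] at h1
  rcases mul_eq_zero.1 h1 with h2 | h2
  · exact absurd (Nat.cast_eq_zero.1 h2) hN.ne'
  · exact h2

/-- the closed relator path -/
theorem closed_of_mem (L : LOG V E) (e : E) (g : FreeGroup V) (hm : g * L.rel e * g⁻¹ ∈ M) :
    Closed L (nx M) (e, g⁻¹ • ((1 : FreeGroup V) : FreeGroup V ⧸ M)) := by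
  unfold Closed
  simp only [nx_apply]
  set a := g⁻¹ • ((1 : FreeGroup V) : FreeGroup V ⧸ M) with ha
  have h1 : (L.rel e)⁻¹ • a = a := by
    have h2 := smul_base (M.inv_mem hm)
    rw [mul_inv_rev, mul_inv_rev, inv_inv, mul_smul, mul_smul, ← ha] at h2
    rw [ha, eq_inv_smul_iff, ← ha]
    exact h2
  clear_value a
  have h3 : ((FreeGroup.of (L.lab e))⁻¹ * (FreeGroup.of (L.ini e))⁻¹) • a =
      ((FreeGroup.of (L.ter e))⁻¹ * (FreeGroup.of (L.lab e))⁻¹) • a := by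
    conv_rhs => rw [← h1]
    rw [← mul_smul]
    congr 1
    unfold LOG.rel
    group
  rw [mul_smul, mul_smul] at h3
  exact h3

theorem J_line (L : LOG V E) (e : E) (g : FreeGroup V) (hm : g * L.rel e * g⁻¹ ∈ M)
    (c : (FreeGroup V ⧸ M) × V → ℚ)
    (hc : Eqn L (nx M) c (e, g⁻¹ • ((1 : FreeGroup V) : FreeGroup V ⧸ M))) :
    g * L.rel e * g⁻¹ ∈ Zer c := by
  refine ⟨hm, ?_⟩
  have hcl := closed_of_mem L e g hm
  unfold Closed at hcl
  simp only [nx_apply] at hcl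
  set a := g⁻¹ • ((1 : FreeGroup V) : FreeGroup V ⧸ M) with ha
  have hga : g • a = ((1 : FreeGroup V) : FreeGroup V ⧸ M) := by rw [ha, smul_inv_smul]
  have hra : (L.rel e)⁻¹ • a = a := by
    have h2 := smul_base (M.inv_mem hm)
    rw [mul_inv_rev, mul_inv_rev, inv_inv, mul_smul, mul_smul, ← ha] at h2
    rw [ha, eq_inv_smul_iff, ← ha]
    exact h2
  have hb : (FreeGroup.of (L.ini e) * FreeGroup.of (L.lab e))⁻¹ • a =
      (FreeGroup.of (L.ter e))⁻¹ • (FreeGroup.of (L.lab e))⁻¹ • a := by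
    rw [mul_inv_rev, mul_smul]; exact hcl
  have hJ : J M c (L.rel e) a = c (a, L.ini e) + c ((FreeGroup.of (L.ini e))⁻¹ • a, L.lab e) -
      c ((FreeGroup.of (L.lab e))⁻¹ • a, L.ter e) - c (a, L.lab e) := by
    unfold LOG.rel
    rw [J_mul, J_mul, J_mul, J_inv, J_inv, J_of, J_of, hb, smul_inv_smul, J_of, J_of,
      mul_inv_rev, inv_inv, mul_smul, hb, smul_inv_smul, smul_inv_smul]
    ring
  rw [mul_assoc, J_mul, J_mul, ← ha, hJ, hra, J_inv, hga]
  unfold Eqn at hc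
  have e0 : sd L (nx M) (e, a) 0 = (a, L.ini e) := rfl
  have e1 : sd L (nx M) (e, a) 1 = ((FreeGroup.of (L.ini e))⁻¹ • a, L.lab e) := rfl
  have e2 : sd L (nx M) (e, a) 2 = (a, L.lab e) := rfl
  have e3 : sd L (nx M) (e, a) 3 = ((FreeGroup.of (L.lab e))⁻¹ • a, L.ter e) := rfl
  rw [e0, e1, e2, e3] at hc
  linarith

theorem base_transitive (a : FreeGroup V ⧸ M) :
    ∃ g : FreeGroup V, a = g⁻¹ • ((1 : FreeGroup V) : FreeGroup V ⧸ M) := by
  induction a using QuotientGroup.induction_on with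
  | H x =>
    refine ⟨x⁻¹, ?_⟩
    rw [inv_inv, MulAction.Quotient.smul_coe, smul_eq_mul, mul_one]

theorem coboundary (c : (FreeGroup V ⧸ M) × V → ℚ) (hM : M ≤ Zer c) :
    ∃ δ : (FreeGroup V ⧸ M) → ℚ, ∀ x, c x = δ (nx M x.2 x.1) - δ x.1 := by
  classical
  choose γ hγ using (base_transitive (M := M))
  let δ : (FreeGroup V ⧸ M) → ℚ := fun a => J M c (γ a) ((1 : FreeGroup V) : FreeGroup V ⧸ M)
  have key : ∀ g : FreeGroup V, δ (g⁻¹ • ((1 : FreeGroup V) : FreeGroup V ⧸ M)) =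
      J M c g ((1 : FreeGroup V) : FreeGroup V ⧸ M) := by
    intro g
    set a := g⁻¹ • ((1 : FreeGroup V) : FreeGroup V ⧸ M) with ha
    have h1 : (g * (γ a)⁻¹) • ((1 : FreeGroup V) : FreeGroup V ⧸ M) =
        ((1 : FreeGroup V) : FreeGroup V ⧸ M) := by
      rw [mul_smul, ← hγ a, ha, smul_inv_smul]
    have h2 := mem_of_smul_base h1
    have h3 : g = (g * (γ a)⁻¹) * γ a := by group
    show J M c (γ a) _ = _
    conv_rhs => rw [h3]
    rw [J_add h2, (hM h2).2, zero_add]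
  refine ⟨δ, ?_⟩
  rintro ⟨a, v⟩
  have h1 : nx M v a = (γ a * FreeGroup.of v)⁻¹ • ((1 : FreeGroup V) : FreeGroup V ⧸ M) := by
    rw [mul_inv_rev, mul_smul, ← hγ a]; rfl
  show c (a, v) = δ (nx M v a) - δ a
  rw [h1, key, J_mul, ← hγ a, J_of]
  show c (a, v) = J M c (γ a) _ + c (a, v) - J M c (γ a) _
  ring

end cocycle

/-- the edges of a path -/
theorem path_edges (L : LOG V E) (M : Subgroup (FreeGroup V)) (w : FreeGroup V) :
    ∀ a : FreeGroup V ⧸ M, ∃ P : Finset ((FreeGroup V ⧸ M) × V), ∀ p : (FreeGroup V ⧸ M) → L.G,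
      (∀ x ∈ P, p (nx M x.2 x.1) = p x.1 * L.gen x.2) → p (w⁻¹ • a) = p a * L.pr w := by
  classical
  refine FreeGroup.induction_on (C := fun w => ∀ a : FreeGroup V ⧸ M,
    ∃ P : Finset ((FreeGroup V ⧸ M) × V), ∀ p : (FreeGroup V ⧸ M) → L.G,
      (∀ x ∈ P, p (nx M x.2 x.1) = p x.1 * L.gen x.2) → p (w⁻¹ • a) = p a * L.pr w) w ?_ ?_ ?_ ?_
  · intro a
    refine ⟨∅, fun p _ => ?_⟩
    rw [inv_one, one_smul, map_one, mul_one]
  · intro v a
    refine ⟨{(a, v)}, fun p hp => ?_⟩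
    exact hp (a, v) (Finset.mem_singleton_self _)
  · intro v _ a
    refine ⟨{(FreeGroup.of v • a, v)}, fun p hp => ?_⟩
    have h := hp (FreeGroup.of v • a, v) (Finset.mem_singleton_self _)
    simp only [nx_apply, inv_smul_smul] at h
    have h2 : L.pr (FreeGroup.of v)⁻¹ = (L.gen v)⁻¹ := by rw [map_inv]; rfl
    have h3 : ((FreeGroup.of v : FreeGroup V)⁻¹)⁻¹ • a = FreeGroup.of v • a := by rw [inv_inv]
    rw [h2, h3, h, mul_inv_cancel_right]
  · intro x y hx hy a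
    obtain ⟨P, hP⟩ := hx a
    obtain ⟨Q, hQ⟩ := hy (x⁻¹ • a)
    refine ⟨P ∪ Q, fun p hp => ?_⟩
    rw [mul_inv_rev, mul_smul, hQ p (fun z hz => hp z (Finset.mem_union_right _ hz)),
      hP p (fun z hz => hp z (Finset.mem_union_left _ hz)), map_mul, mul_assoc]

/-- consequences of relators need only finitely many conjugates -/
theorem exists_lines (L : LOG V E) (w : FreeGroup V) (hw : L.pr w = 1) :
    ∃ C : Finset (E × FreeGroup V),
      w ∈ Subgroup.closure {x | ∃ q ∈ C, x = q.2 * L.rel q.1 * q.2⁻¹} := by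
  classical
  have h1 : w ∈ Subgroup.normalClosure (Set.range L.rel) := by
    have h2 : w ∈ (L.pr).ker := hw
    have h3 : (L.pr).ker = Subgroup.normalClosure (Set.range L.rel) := QuotientGroup.ker_mk' _
    rw [h3] at h2
    exact h2
  have h1' : w ∈ Subgroup.closure (Group.conjugatesOfSet (Set.range L.rel)) := h1
  refine Subgroup.closure_induction (p := fun w _ => ∃ C : Finset (E × FreeGroup V),
      w ∈ Subgroup.closure {x | ∃ q ∈ C, x = q.2 * L.rel q.1 * q.2⁻¹}) ?_ ?_ ?_ ?_ h1'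
  · intro x hx
    obtain ⟨r, ⟨e, rfl⟩, hr⟩ := Group.mem_conjugatesOfSet_iff.1 hx
    obtain ⟨g, hg⟩ := isConj_iff.1 hr
    refine ⟨{(e, g)}, Subgroup.subset_closure ⟨(e, g), Finset.mem_singleton_self _, hg.symm⟩⟩
  · exact ⟨∅, Subgroup.one_mem _⟩
  · rintro x y _ _ ⟨C, hC⟩ ⟨D, hD⟩
    refine ⟨C ∪ D, Subgroup.mul_mem _ (Subgroup.closure_mono ?_ hC) (Subgroup.closure_mono ?_ hD)⟩
    · rintro z ⟨q, hq, hz⟩; exact ⟨q, Finset.mem_union_left _ hq, hz⟩
    · rintro z ⟨q, hq, hz⟩; exact ⟨q, Finset.mem_union_right _ hq, hz⟩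
  · rintro x _ ⟨C, hC⟩
    exact ⟨C, Subgroup.inv_mem _ hC⟩

theorem pow_mem_commutator {G : Type} [Group G] (H : Subgroup G) (hH : H.FG)
    (hno : ¬ ∃ ψ : H →* Multiplicative ℤ, Function.Surjective ψ) (h : G) (hh : h ∈ H) :
    ∃ N : ℕ, 0 < N ∧ h ^ N ∈ ⁅H, H⁆ := by
  have : Group.FG H := (Group.fg_iff_subgroup_fg H).2 hH
  have hnz : Pool.LIQuasi.NoZ H := by
    intro f
    by_contra hf
    apply hno
    refine surj_of_ne f ?_
    by_contra hcon
    push Not at hcon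
    exact hf (MonoidHom.ext hcon)
  have hfin := Pool.LIQuasi.finite_quot hnz (commutator H) (fun x y => by
    have := Subgroup.commutator_mem_commutator (Subgroup.mem_top x) (Subgroup.mem_top y)
    exact this)
  obtain ⟨N, hN, h2⟩ := isOfFinOrder_iff_pow_eq_one.1
    (isOfFinOrder_of_finite ((⟨h, hh⟩ : H) : H ⧸ commutator H))
  refine ⟨N, hN, ?_⟩
  have h3 : (((⟨h, hh⟩ : H) ^ N : H) : H ⧸ commutator H) = 1 := by
    rw [QuotientGroup.mk_pow]; exact h2
  rw [QuotientGroup.eq_one_iff] at h3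
  have h4 : H.subtype ((⟨h, hh⟩ : H) ^ N) ∈ (commutator H).map H.subtype :=
    Subgroup.mem_map_of_mem _ h3
  have h5 : (commutator H).map H.subtype = ⁅H, H⁆ := by
    rw [commutator_def, Subgroup.map_commutator, ← MonoidHom.range_eq_map, Subgroup.range_subtype]
  rw [h5] at h4
  simpa using h4

/-- **Local indicability from the counting inequality.** -/
theorem locInd_of_ineq (L : LOG V E)
    (hI : ∀ M : Subgroup (FreeGroup V), Ineq L (FreeGroup V ⧸ M)) : LocInd L.G := by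
  classical
  intro H hH hne
  by_contra hno
  apply hne
  obtain ⟨S, hS⟩ := hH
  have hsurj : Function.Surjective L.pr := PresentedGroup.mk_surjective _
  choose lf hlf using hsurj
  let W : Finset (FreeGroup V) := S.image lf
  have hWS : ∀ w ∈ W, L.pr w ∈ H := by
    intro w hw
    obtain ⟨s, hs, rfl⟩ := Finset.mem_image.1 hw
    rw [hlf, ← hS]
    exact Subgroup.subset_closure hs
  let K : Subgroup (FreeGroup V) := Subgroup.closure (W : Set (FreeGroup V))
  have hK : K.map L.pr = H := by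
    rw [MonoidHom.map_closure, ← hS]
    congr 1
    ext x
    constructor
    · rintro ⟨w, hw, rfl⟩
      obtain ⟨s, hs, rfl⟩ := Finset.mem_image.1 (Finset.mem_coe.1 hw)
      rw [hlf]; exact hs
    · intro hx
      exact ⟨lf x, Finset.mem_coe.2 (Finset.mem_image_of_mem lf hx), hlf x⟩
  have hex : ∀ w : FreeGroup V, ∃ C : Finset (E × FreeGroup V), w ∈ W →
      ∃ N : ℕ, 0 < N ∧ ∃ k ∈ ⁅K, K⁆,
        w ^ N * k⁻¹ ∈ Subgroup.closure {x | ∃ q ∈ C, x = q.2 * L.rel q.1 * q.2⁻¹} := by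
    intro w
    by_cases hw : w ∈ W
    · obtain ⟨N, hN, h1⟩ := pow_mem_commutator H ⟨S, hS⟩ hno (L.pr w) (hWS w hw)
      rw [← hK, ← Subgroup.map_commutator] at h1
      obtain ⟨k, hk, hk2⟩ := h1
      obtain ⟨C, hC⟩ := exists_lines L (w ^ N * k⁻¹) (by
        rw [map_mul, map_inv, map_pow, hk2, mul_inv_cancel])
      exact ⟨C, fun _ => ⟨N, hN, k, hk, hC⟩⟩
    · exact ⟨∅, fun h => absurd h hw⟩
  choose Cf hCf using hex
  let C : Finset (E × FreeGroup V) := W.biUnion Cf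
  let lines : Set (FreeGroup V) := {x | ∃ q ∈ C, x = q.2 * L.rel q.1 * q.2⁻¹}
  let M : Subgroup (FreeGroup V) := K ⊔ Subgroup.closure lines
  have hKM : K ≤ M := le_sup_left
  have hlM : Subgroup.closure lines ≤ M := le_sup_right
  have hWM : ∀ w ∈ W, w ∈ M := fun w hw => hKM (Subgroup.subset_closure hw)
  let a0 : FreeGroup V ⧸ M := ((1 : FreeGroup V) : FreeGroup V ⧸ M)
  have hline : ∀ q ∈ C, q.2 * L.rel q.1 * q.2⁻¹ ∈ M := fun q hq =>
    hlM (Subgroup.subset_closure ⟨q, hq, rfl⟩)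
  let F : Finset (E × (FreeGroup V ⧸ M)) := C.image fun q => (q.1, q.2⁻¹ • a0)
  choose P hP using fun w => path_edges L M w a0
  let T : Finset ((FreeGroup V ⧸ M) × V) :=
    (F.biUnion fun f => Finset.univ.image (sd L (nx M) f)) ∪ W.biUnion P
  have hcl : ∀ f ∈ F, Closed L (nx M) f := by
    intro f hf
    obtain ⟨q, hq, rfl⟩ := Finset.mem_image.1 hf
    exact closed_of_mem L q.1 q.2 (hline q hq)
  have hCx : Cplx L (nx M) T F := by
    intro f hf
    refine ⟨hcl f hf, fun k => Finset.mem_union_left _ ?_⟩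
    exact Finset.mem_biUnion.2 ⟨f, hf, Finset.mem_image_of_mem _ (Finset.mem_univ _)⟩
  have hz : HZ L (nx M) T F := by
    intro c hc
    have hMZ : M ≤ Zer c := by
      have hl : Subgroup.closure lines ≤ Zer c := by
        rw [Subgroup.closure_le]
        rintro x ⟨q, hq, rfl⟩
        exact J_line L q.1 q.2 (hline q hq) c (hc _ (Finset.mem_image_of_mem _ hq))
      refine sup_le ?_ hl
      rw [Subgroup.closure_le]
      intro w hw
      obtain ⟨N, hN, k, hk, h1⟩ := hCf w hw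
      have h2 : w ^ N * k⁻¹ ∈ Zer c := by
        refine hl (Subgroup.closure_mono ?_ h1)
        rintro x ⟨q, hq, hx⟩
        exact ⟨q, Finset.mem_biUnion.2 ⟨w, hw, hq⟩, hx⟩
      have h3 : k ∈ Zer c := comm_le_Zer c (Subgroup.commutator_mono hKM hKM hk)
      have h4 : w ^ N ∈ Zer c := by
        have := (Zer c).mul_mem h2 h3
        rwa [inv_mul_cancel_right] at this
      exact mem_Zer_of_pow (hWM w hw) hN h4
    obtain ⟨δ, hδ⟩ := coboundary c hMZ
    exact ⟨δ, fun x _ => hδ x⟩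
  obtain ⟨p, hp⟩ := triv_of_HZ (hI M) (nx M) _ T F rfl hCx hz
  have hone : ∀ w ∈ W, L.pr w = 1 := by
    intro w hw
    have h1 := hP w p (fun x hx => hp x (Finset.mem_union_right _
      (Finset.mem_biUnion.2 ⟨w, hw, hx⟩)))
    rw [smul_base (M.inv_mem (hWM w hw))] at h1
    exact (mul_eq_left.1 h1.symm)
  rw [← hS, Subgroup.closure_eq_bot_iff]
  intro x hx
  have h1 := hone (lf x) (Finset.mem_image_of_mem lf hx)
  rw [hlf] at h1
  exact h1

end Pool.Agent.V5helper80.NPI
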